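import Pool.Agent.Q150.FSP.Top

/-!
# MP_ad9ced_gt: final-subset spaces of well-founded posets of finite width

For every well-founded poset `P` which is a union of finitely many chains, the compact space `FS P`
of final subsets of `P` has a canonical clopen selector; finite width may be weakened to the absence
of infinite antichains (well-quasi-orders).
-/

open Set

universe u

namespace Pool.Agent.Results.MP_ad9ced_gt.FiniteWidth

open Pool.Agent.Q150.FSP

/-- `P` is the union of finitely many chains. -/
def FiniteWidth (P : Type u) [PartialOrder P] : Prop :=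
  ∃ (n : ℕ) (c : Fin n → Set P), (∀ i, IsChain (· ≤ ·) (c i)) ∧ ⋃ i, c i = univ

theorem FiniteWidth.narrow {P : Type u} [PartialOrder P] (h : FiniteWidth P) (A : Set P)
    (hA : IsAntichain (· ≤ ·) A) : A.Finite := by
  classical
  obtain ⟨n, c, hc, hu⟩ := h
  have hx : ∀ x : P, ∃ i, x ∈ c i := by
    intro x
    have : x ∈ ⋃ i, c i := by rw [hu]; trivial
    exact mem_iUnion.1 this
  choose f hf using hx
  refine Set.Finite.of_injOn (f := f) (t := univ) (fun _ _ => trivial) ?_ Set.finite_univ
  intro x hxA y hyA hxy
  by_contra hne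
  have h1 := hf x
  have h2 := hf y
  rw [← hxy] at h2
  rcases hc (f x) h1 h2 hne with h | h
  · exact hA hxA hyA hne h
  · exact hA hyA hxA (Ne.symm hne) h

theorem not_rat {P : Type u} [PartialOrder P] (wf : ¬ ∃ f : ℕ → P, ∀ n, f (n + 1) < f n) :
    IsEmpty (ℚ ↪o P) := by
  constructor
  intro e
  apply wf
  refine ⟨fun n => e (-(n : ℚ)), fun n => e.strictMono ?_⟩
  push_cast
  linarith

theorem result (P : Type u) [PartialOrder P]
    (wellFounded : ¬ ∃ f : ℕ → P, ∀ n, f (n + 1) < f n)
    (narrow : FiniteWidth P ∨ ∀ A : Set P, IsAntichain (· ≤ ·) A → A.Finite) :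
    ∃ U : FS P → Set (FS P), IsCanonicalSelector U := by
  have h : ∀ A : Set P, IsAntichain (· ≤ ·) A → A.Finite := by
    rcases narrow with h | h
    · exact h.narrow
    · exact h
  exact canonical h (sm_univ h (not_rat wellFounded) _ Subset.rfl)

end Pool.Agent.Results.MP_ad9ced_gt.FiniteWidth
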